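import Mathlib

/-!
# Concentrated sets of size less than the splitting number: basic facts

Definitions of the cardinals `b` and `s`, of `b`-concentrated sets and of the Hurewicz property,
basic facts on bounded families, and a lattice path lemma: a monotone relation `P n k` is coded by
the set of times at which its boundary path goes up, and an infinite set which is not split by this
set computes either a bound for the path or a bound for the inverse path.
-/

namespace Pool.Agent.H458R6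

open Cardinal Filter Set Topology

/-- A family of functions is bounded when one function eventually dominates each member. -/
def Bdd (B : Set (ℕ → ℕ)) : Prop := ∃ g : ℕ → ℕ, ∀ f ∈ B, ∀ᶠ n in atTop, f n ≤ g n

/-- The bounding number. -/
noncomputable def bNum : Cardinal.{0} :=
  sInf {κ : Cardinal.{0} | ∃ B : Set (ℕ → ℕ), #B = κ ∧ ¬ Bdd B}

/-- The splitting number. -/
noncomputable def sNum : Cardinal.{0} :=
  sInf {κ : Cardinal.{0} | ∃ S : Set (Set ℕ), #S = κ ∧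
    ∀ A : Set ℕ, A.Infinite → ∃ s ∈ S, (A ∩ s).Infinite ∧ (A \ s).Infinite}

/-- `X` is `b`-concentrated (on some countable subset). -/
def Concentrated (X : Set (ℕ → Bool)) : Prop :=
  ∃ D : Set (ℕ → Bool), D ⊆ X ∧ D.Countable ∧
    ∀ U : Set (ℕ → Bool), IsOpen U → D ⊆ U → #(↥(X \ U)) < bNum

/-- `X` is Hurewicz. -/
def Hurewicz {α : Type} [TopologicalSpace α] (X : Set α) : Prop :=
  ∀ 𝒰 : ℕ → Set (Set α), (∀ n, (∀ U ∈ 𝒰 n, IsOpen U) ∧ X ⊆ ⋃₀ 𝒰 n) →
    ∃ ℱ : ℕ → Set (Set α), (∀ n, (ℱ n).Finite ∧ ℱ n ⊆ 𝒰 n) ∧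
      ∀ x ∈ X, ∀ᶠ n in atTop, x ∈ ⋃₀ ℱ n

theorem Bdd.mono {A B : Set (ℕ → ℕ)} (h : A ⊆ B) (hB : Bdd B) : Bdd A := by
  obtain ⟨g, hg⟩ := hB
  exact ⟨g, fun f hf => hg f (h hf)⟩

theorem bdd_iUnion (A : ℕ → Set (ℕ → ℕ)) (h : ∀ n, Bdd (A n)) : Bdd (⋃ n, A n) := by
  choose g hg using h
  refine ⟨fun m => (Finset.range (m+1)).sup (fun n => g n m), ?_⟩
  intro f hf
  obtain ⟨n, hn⟩ := mem_iUnion.1 hf
  filter_upwards [hg n f hn, eventually_ge_atTop n] with m h1 h2
  exact h1.trans (Finset.le_sup (f := fun n => g n m) (Finset.mem_range.2 (by omega)))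

theorem bdd_of_lt (B : Set (ℕ → ℕ)) (h : #B < bNum) : Bdd B := by
  by_contra hB
  exact notMem_of_lt_csInf' h ⟨B, rfl, hB⟩

theorem not_bdd_univ : ¬ Bdd (univ : Set (ℕ → ℕ)) := by
  rintro ⟨g, hg⟩
  obtain ⟨n, hn⟩ := (hg (fun n => g n + 1) (mem_univ _)).exists
  omega

theorem exists_unbdd : ∃ B : Set (ℕ → ℕ), #B = bNum ∧ ¬ Bdd B := by
  have : ({κ : Cardinal.{0} | ∃ B : Set (ℕ → ℕ), #B = κ ∧ ¬ Bdd B}).Nonempty :=
    ⟨#(univ : Set (ℕ → ℕ)), univ, rfl, not_bdd_univ⟩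
  exact csInf_mem this

theorem mk_iUnion_lt {α : Type} (A : ℕ → Set α) (h : ∀ n, #(A n) < bNum) :
    #(↥(⋃ n, A n)) < bNum := by
  by_contra hcon
  push Not at hcon
  obtain ⟨B, hB, hnB⟩ := exists_unbdd
  rw [← hB] at hcon
  obtain ⟨e⟩ := Cardinal.le_def _ _ |>.1 hcon
  apply hnB
  have hsub : B ⊆ ⋃ n, {f | ∃ hf : f ∈ B, (e ⟨f, hf⟩ : α) ∈ A n} := by
    intro f hf
    obtain ⟨n, hn⟩ := mem_iUnion.1 (e ⟨f, hf⟩).2
    exact mem_iUnion.2 ⟨n, hf, hn⟩
  refine Bdd.mono hsub (bdd_iUnion _ fun n => bdd_of_lt _ ?_)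
  refine lt_of_le_of_lt ?_ (h n)
  refine Cardinal.mk_le_of_injective
    (f := fun f : {f | ∃ hf : f ∈ B, (e ⟨f, hf⟩ : α) ∈ A n} =>
      (⟨e ⟨f.1, Exists.fst f.2⟩, Exists.snd f.2⟩ : A n)) ?_
  intro f f' hff
  have h1 : (e ⟨f.1, Exists.fst f.2⟩ : α) = e ⟨f'.1, Exists.fst f'.2⟩ := by
    simpa using congrArg Subtype.val hff
  have h2 := e.injective (Subtype.ext h1)
  exact Subtype.ext (by simpa using congrArg Subtype.val h2)

theorem aleph0_lt : ℵ₀ < bNum := by
  by_contra hcon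
  push Not at hcon
  obtain ⟨B, hB, hnB⟩ := exists_unbdd
  rw [← hB] at hcon
  have hc : B.Countable := Cardinal.le_aleph0_iff_set_countable.1 hcon
  rcases B.eq_empty_or_nonempty with rfl | hne
  · exact hnB ⟨0, by simp⟩
  obtain ⟨f, rfl⟩ := hc.exists_eq_range hne
  apply hnB
  have : range f = ⋃ n, {f n} := by ext; simp [eq_comm]
  rw [this]
  exact bdd_iUnion _ fun n => ⟨f n, by simp⟩

theorem bdd_image {α : Type} (E : Set α) (φ : α → ℕ → ℕ) (h : #E < bNum) :
    ∃ g : ℕ → ℕ, ∀ x ∈ E, ∀ᶠ n in atTop, φ x n ≤ g n := by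
  obtain ⟨g, hg⟩ := bdd_of_lt (φ '' E) (lt_of_le_of_lt Cardinal.mk_image_le h)
  exact ⟨g, fun x hx => hg _ (mem_image_of_mem _ hx)⟩

theorem unsplit (𝒜 : Set (Set ℕ)) (h : #𝒜 < sNum) :
    ∃ B : Set ℕ, B.Infinite ∧ ∀ a ∈ 𝒜, (B ∩ a).Finite ∨ (B \ a).Finite := by
  have h1 := notMem_of_lt_csInf' h
  by_contra hcon
  apply h1
  refine ⟨𝒜, rfl, fun A hA => ?_⟩
  by_contra h2
  apply hcon
  refine ⟨A, hA, fun a ha => ?_⟩
  by_contra h3
  push Not at h3
  exact h2 ⟨a, ha, h3.1, h3.2⟩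

/-! ### The staircase path -/

open Classical in
noncomputable def pos (P : ℕ → ℕ → Prop) : ℕ → ℕ × ℕ
  | 0 => (0, 0)
  | t + 1 => if P (pos P t).1 (pos P t).2 then ((pos P t).1 + 1, (pos P t).2)
      else ((pos P t).1, (pos P t).2 + 1)

theorem pos_succ_of (P : ℕ → ℕ → Prop) (t : ℕ) (h : P (pos P t).1 (pos P t).2) :
    pos P (t+1) = ((pos P t).1 + 1, (pos P t).2) := by
  simp [pos, h]

theorem pos_succ_of_not (P : ℕ → ℕ → Prop) (t : ℕ) (h : ¬ P (pos P t).1 (pos P t).2) :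
    pos P (t+1) = ((pos P t).1, (pos P t).2 + 1) := by
  simp [pos, h]

theorem pos_sum (P : ℕ → ℕ → Prop) (t : ℕ) : (pos P t).1 + (pos P t).2 = t := by
  induction t with
  | zero => simp [pos]
  | succ t ih =>
    by_cases h : P (pos P t).1 (pos P t).2
    · rw [pos_succ_of P t h]; simp only; omega
    · rw [pos_succ_of_not P t h]; simp only; omega

theorem pos_step (P : ℕ → ℕ → Prop) (t : ℕ) :
    (pos P t).1 ≤ (pos P (t+1)).1 ∧ (pos P t).2 ≤ (pos P (t+1)).2 := by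
  by_cases h : P (pos P t).1 (pos P t).2
  · rw [pos_succ_of P t h]; simp
  · rw [pos_succ_of_not P t h]; simp

theorem pos_mono1 (P : ℕ → ℕ → Prop) : Monotone fun t => (pos P t).1 :=
  monotone_nat_of_le_succ fun t => (pos_step P t).1

theorem pos_mono2 (P : ℕ → ℕ → Prop) : Monotone fun t => (pos P t).2 :=
  monotone_nat_of_le_succ fun t => (pos_step P t).2

theorem pos_cross1 (P : ℕ → ℕ → Prop) (n T : ℕ) (h : n + 1 ≤ (pos P T).1) :
    ∃ t < T, (pos P t).1 = n ∧ P (pos P t).1 (pos P t).2 := by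
  induction T with
  | zero => simp [pos] at h
  | succ T ih =>
    by_cases h1 : n + 1 ≤ (pos P T).1
    · obtain ⟨t, ht, h2⟩ := ih h1
      exact ⟨t, by omega, h2⟩
    · by_cases h2 : P (pos P T).1 (pos P T).2
      · rw [pos_succ_of P T h2] at h
        simp only at h
        exact ⟨T, by omega, by omega, h2⟩
      · rw [pos_succ_of_not P T h2] at h
        simp only at h
        omega

theorem pos_cross2 (P : ℕ → ℕ → Prop) (k T : ℕ) (h : k + 1 ≤ (pos P T).2) :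
    ∃ t < T, (pos P t).2 = k ∧ ¬ P (pos P t).1 (pos P t).2 := by
  induction T with
  | zero => simp [pos] at h
  | succ T ih =>
    by_cases h1 : k + 1 ≤ (pos P T).2
    · obtain ⟨t, ht, h2⟩ := ih h1
      exact ⟨t, by omega, h2⟩
    · by_cases h2 : P (pos P T).1 (pos P T).2
      · rw [pos_succ_of P T h2] at h
        simp only at h
        omega
      · rw [pos_succ_of_not P T h2] at h
        simp only at h
        exact ⟨T, by omega, by omega, h2⟩

/-- if the path moves right at all times `b (c+i)`, then it crosses column `n` by time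
`b (c+n)`. -/
theorem path1 (P : ℕ → ℕ → Prop) (hk : ∀ n k k', k ≤ k' → P n k → P n k')
    (b : ℕ → ℕ) (hb : StrictMono b) (c : ℕ)
    (h : ∀ n, P (pos P (b (c+n))).1 (pos P (b (c+n))).2) (n : ℕ) : P n (b (c+n)) := by
  have key : ∀ n, n + 1 ≤ (pos P (b (c+n) + 1)).1 := by
    intro n
    induction n with
    | zero => rw [pos_succ_of P _ (h 0)]; simp
    | succ n ih =>
      rw [pos_succ_of P _ (h (n+1))]
      have h1 : b (c+n) + 1 ≤ b (c + (n+1)) := hb (by omega)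
      have h2 := pos_mono1 P h1
      simp only at h2 ⊢
      omega
  obtain ⟨t, ht, h1, h2⟩ := pos_cross1 P n _ (key n)
  rw [h1] at h2
  refine hk _ _ _ ?_ h2
  have := pos_sum P t
  omega

theorem path2 (P : ℕ → ℕ → Prop) (hn : ∀ n n' k, n' ≤ n → P n k → P n' k)
    (b : ℕ → ℕ) (hb : StrictMono b) (c : ℕ)
    (h : ∀ k, ¬ P (pos P (b (c+k))).1 (pos P (b (c+k))).2) (k : ℕ) : ¬ P (b (c+k)) k := by
  have key : ∀ k, k + 1 ≤ (pos P (b (c+k) + 1)).2 := by
    intro k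
    induction k with
    | zero => rw [pos_succ_of_not P _ (h 0)]; simp
    | succ k ih =>
      rw [pos_succ_of_not P _ (h (k+1))]
      have h1 : b (c+k) + 1 ≤ b (c + (k+1)) := hb (by omega)
      have h2 := pos_mono2 P h1
      simp only at h2 ⊢
      omega
  obtain ⟨t, ht, h1, h2⟩ := pos_cross2 P k _ (key k)
  rw [h1] at h2
  intro h3
  apply h2
  refine hn _ _ _ ?_ h3
  have := pos_sum P t
  omega

/-- A tail of the enumeration avoids a set whose trace is finite. -/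
theorem tail_notMem (B s : Set ℕ) (b : ℕ → ℕ) (hb : StrictMono b) (hB : ∀ n, b n ∈ B)
    (h : (B ∩ s).Finite) : ∃ c, ∀ n, b (c + n) ∉ s := by
  obtain ⟨N, hN⟩ := h.bddAbove
  refine ⟨N + 1, fun n hn => ?_⟩
  have h1 := hN ⟨hB _, hn⟩
  have h2 := hb.id_le (N + 1 + n)
  simp only [id] at h2
  omega

/-- The combined dichotomy. -/
theorem path_dichotomy (P : ℕ → ℕ → Prop) (hk : ∀ n k k', k ≤ k' → P n k → P n k')
    (hn : ∀ n n' k, n' ≤ n → P n k → P n' k) (B : Set ℕ)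
    (b : ℕ → ℕ) (hb : StrictMono b) (hB : ∀ n, b n ∈ B)
    (h : (B ∩ {t | ¬ P (pos P t).1 (pos P t).2}).Finite ∨
      (B \ {t | ¬ P (pos P t).1 (pos P t).2}).Finite) :
    (∃ c, ∀ n ≥ c, P n (b (2 * n))) ∨ (∃ c, ∀ k ≥ c, ¬ P (b (2 * k)) k) := by
  rcases h with h | h
  · left
    obtain ⟨c, hc⟩ := tail_notMem B _ b hb hB h
    refine ⟨c, fun n hnc => ?_⟩
    have h1 := path1 P hk b hb c (fun n => by simpa using hc n) n
    exact hk _ _ _ (hb.monotone (by omega)) h1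
  · right
    have h' : (B ∩ {t | P (pos P t).1 (pos P t).2}).Finite := by
      refine h.subset ?_
      rintro t ⟨h1, h2⟩
      exact ⟨h1, by simpa using h2⟩
    obtain ⟨c, hc⟩ := tail_notMem B _ b hb hB h'
    refine ⟨c, fun k hkc => ?_⟩
    have h1 := path2 P hn b hb c (fun k => by simpa using hc k) k
    intro h3
    exact h1 (hn _ _ _ (hb.monotone (by omega)) h3)

end Pool.Agent.H458R6
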