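import Pool.Agent.H458R6.Base

/-!
# Sizes of concentrated sets

Concentrated sets of size less than `s` are Hurewicz, and a bound for the sizes of concentrated
sets.
-/

namespace Pool.Agent.H458R6

open Cardinal Filter Set Topology

/-- Given finite selections that catch all points of `X` outside a set of size `< b`, we can
catch all points. -/
theorem combine (X : Set (ℕ → Bool)) (𝒰 : ℕ → Set (Set (ℕ → Bool)))
    (h𝒰 : ∀ n, (∀ U ∈ 𝒰 n, IsOpen U) ∧ X ⊆ ⋃₀ 𝒰 n) (V : ℕ → Set (Set (ℕ → Bool)))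
    (hV : ∀ n, (V n).Finite ∧ V n ⊆ 𝒰 n) (E : Set (ℕ → Bool)) (hEX : E ⊆ X) (hE : #E < bNum)
    (hc : ∀ x ∈ X, x ∉ E → ∀ᶠ n in atTop, x ∈ ⋃₀ V n) :
    ∃ ℱ : ℕ → Set (Set (ℕ → Bool)), (∀ n, (ℱ n).Finite ∧ ℱ n ⊆ 𝒰 n) ∧
      ∀ x ∈ X, ∀ᶠ n in atTop, x ∈ ⋃₀ ℱ n := by
  rcases X.eq_empty_or_nonempty with rfl | hne
  · exact ⟨V, hV, by simp⟩
  have hW : ∀ n, ∃ W : ℕ → Set (ℕ → Bool), (∀ i, W i ∈ 𝒰 n) ∧ ∀ x ∈ X, ∃ i, x ∈ W i := by
    intro n
    obtain ⟨T, hT1, hT2, hT3⟩ := TopologicalSpace.isOpen_sUnion_countable (𝒰 n) (h𝒰 n).1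
    have hcov : X ⊆ ⋃₀ T := hT3 ▸ (h𝒰 n).2
    obtain ⟨x0, hx0⟩ := hne
    obtain ⟨t, ht, -⟩ := hcov hx0
    obtain ⟨f, hf⟩ := hT1.exists_eq_range ⟨t, ht⟩
    refine ⟨f, fun i => hT2 (hf ▸ mem_range_self i), fun x hx => ?_⟩
    obtain ⟨s, hs, hxs⟩ := hcov hx
    rw [hf] at hs
    obtain ⟨i, rfl⟩ := hs
    exact ⟨i, hxs⟩
  choose W hW1 hW2 using hW
  classical
  let φ : (ℕ → Bool) → ℕ → ℕ := fun x n => if hx : x ∈ X then (hW2 n x hx).choose else 0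
  have hφ : ∀ x ∈ X, ∀ n, x ∈ W n (φ x n) := by
    intro x hx n
    simp only [φ, hx, dif_pos]
    exact (hW2 n x hx).choose_spec
  obtain ⟨g, hg⟩ := bdd_image E φ hE
  refine ⟨fun n => V n ∪ W n '' Iic (g n), fun n => ⟨?_, ?_⟩, fun x hx => ?_⟩
  · exact (hV n).1.union ((finite_Iic _).image _)
  · refine union_subset (hV n).2 ?_
    rintro _ ⟨i, -, rfl⟩
    exact hW1 n i
  · by_cases hxE : x ∈ E
    · filter_upwards [hg x hxE] with n hn
      exact ⟨W n (φ x n), Or.inr ⟨φ x n, hn, rfl⟩, hφ x hx n⟩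
    · filter_upwards [hc x hx hxE] with n hn
      obtain ⟨s, hs, hxs⟩ := hn
      exact ⟨s, Or.inl hs, hxs⟩

/-- **Theorem A.** -/
theorem hurewicz_of_small (X : Set (ℕ → Bool)) (hX : Concentrated X) (hs : #X < sNum) :
    Hurewicz X := by
  intro 𝒰 h𝒰
  obtain ⟨D, hDX, hDc, hD⟩ := hX
  rcases D.eq_empty_or_nonempty with rfl | hne
  · have h1 : #X < bNum := by simpa using hD ∅ isOpen_empty (by simp)
    exact combine X 𝒰 h𝒰 (fun _ => ∅) (fun n => ⟨finite_empty, empty_subset _⟩) X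
      subset_rfl h1 (fun x hx hxE => absurd hx hxE)
  obtain ⟨e, he⟩ := hDc.exists_eq_range hne
  let d : ℕ → (ℕ → Bool) := fun k => e k.unpair.1
  have hdD : ∀ k, d k ∈ D := fun k => he ▸ mem_range_self _
  have hdrep : ∀ y ∈ D, ∀ m, ∃ k ≥ m, d k = y := by
    intro y hy m
    rw [he] at hy
    obtain ⟨i, rfl⟩ := hy
    exact ⟨Nat.pair i m, Nat.right_le_pair i m, by simp [d]⟩
  have hU : ∀ n k, ∃ U, U ∈ 𝒰 n ∧ d k ∈ U := by
    intro n k
    obtain ⟨U, hU, hdU⟩ := (h𝒰 n).2 (hDX (hdD k))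
    exact ⟨U, hU, hdU⟩
  choose U hU1 hU2 using hU
  let P : (ℕ → Bool) → ℕ → ℕ → Prop := fun x n k => ∀ j ≤ n, ∃ k' ≤ k, x ∈ U j k'
  have hPk : ∀ x n k k', k ≤ k' → P x n k → P x n k' := by
    intro x n k k' hkk h j hj
    obtain ⟨i, hi, hx⟩ := h j hj
    exact ⟨i, hi.trans hkk, hx⟩
  have hPn : ∀ x n n' k, n' ≤ n → P x n k → P x n' k :=
    fun x n n' k hnn h j hj => h j (hj.trans hnn)
  obtain ⟨B, hBinf, hB⟩ := unsplit
    ((fun x : ℕ → Bool => {t | ¬ P x (pos (P x) t).1 (pos (P x) t).2}) '' X)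
    (lt_of_le_of_lt Cardinal.mk_image_le hs)
  let b : ℕ → ℕ := Nat.nth (· ∈ B)
  have hb : StrictMono b := Nat.nth_strictMono hBinf
  have hbB : ∀ n, b n ∈ B := fun n => Nat.nth_mem_of_infinite hBinf n
  let O : ℕ → Set (ℕ → Bool) := fun m => ⋃ k ∈ Ici m, ⋂ j ∈ Iic (b (2 * k)), U j k
  have hO : ∀ m, IsOpen (O m) := by
    intro m
    refine isOpen_biUnion fun k _ => ?_
    exact (finite_Iic _).isOpen_biInter fun j _ => (h𝒰 j).1 _ (hU1 j k)
  have hDO : ∀ m, D ⊆ O m := by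
    intro m y hy
    obtain ⟨k, hk, rfl⟩ := hdrep y hy m
    exact mem_biUnion (show k ∈ Ici m from hk) (mem_iInter₂.2 fun j _ => hU2 j k)
  have hE : #(↥(⋃ m, X \ O m)) < bNum := mk_iUnion_lt _ fun m => hD _ (hO m) (hDO m)
  refine combine X 𝒰 h𝒰 (fun n => U n '' Iic (b (2 * n))) (fun n => ⟨(finite_Iic _).image _, ?_⟩)
    (⋃ m, X \ O m) (iUnion_subset fun m => sdiff_subset) hE ?_
  · rintro _ ⟨i, -, rfl⟩
    exact hU1 n i
  · intro x hx hxE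
    rcases path_dichotomy (P x) (hPk x) (hPn x) B b hb hbB (hB _ ⟨x, hx, rfl⟩) with
      ⟨c, hc⟩ | ⟨c, hc⟩
    · filter_upwards [eventually_ge_atTop c] with n hn
      obtain ⟨k', hk', hxU⟩ := hc n hn n le_rfl
      exact ⟨U n k', ⟨k', hk', rfl⟩, hxU⟩
    · exfalso
      apply hxE
      refine mem_iUnion.2 ⟨c, hx, ?_⟩
      intro hxO
      obtain ⟨k, hk, hxk⟩ := mem_iUnion₂.1 hxO
      apply hc k hk
      intro j hj
      exact ⟨k, le_rfl, mem_iInter₂.1 hxk j hj⟩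

/-- Every family of at least `μ` functions has a bounded subfamily of size `b`. -/
def BoundedSubfamilies (μ : Cardinal.{0}) : Prop :=
  ∀ F : Set (ℕ → ℕ), μ ≤ #F → ∃ G : Set (ℕ → ℕ), G ⊆ F ∧ #G = bNum ∧ Bdd G

/-- The space `ω^ω` is covered by at most `b` sets all of whose subsets of size at most `b`
are bounded. -/
def RowCover : Prop :=
  ∃ (ι : Type) (R : ι → Set (ℕ → ℕ)), #ι ≤ bNum ∧ (⋃ i, R i) = Set.univ ∧
    ∀ i, ∀ B : Set (ℕ → ℕ), B ⊆ R i → #B ≤ bNum → Bdd B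

theorem mk_iUnion_le_b {α ι : Type} (A : ι → Set α) (h : ∀ i, #(A i) ≤ bNum) :
    #(↥(⋃ i, A i)) ≤ #ι * bNum := by
  refine Cardinal.mk_iUnion_le_sum_mk.trans ?_
  refine (Cardinal.sum_le_sum _ (fun _ => bNum) h).trans ?_
  rw [Cardinal.sum_const']

theorem boundedSubfamilies_of_rowCover (hM : RowCover) (μ : Cardinal.{0}) (hμ : bNum < μ) :
    BoundedSubfamilies μ := by
  obtain ⟨ι, R, hι, hR, hRB⟩ := hM
  intro F hF
  by_cases hex : ∃ i, bNum ≤ #(↥(F ∩ R i))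
  · obtain ⟨i, hi⟩ := hex
    obtain ⟨G, hG, hGb⟩ := Cardinal.le_mk_iff_exists_subset.1 hi
    exact ⟨G, hG.trans inter_subset_left, hGb,
      hRB i G (hG.trans inter_subset_right) hGb.le⟩
  · exfalso
    push Not at hex
    have h1 : F ⊆ ⋃ i, F ∩ R i := by
      intro f hf
      have : f ∈ ⋃ i, R i := hR ▸ Set.mem_univ _
      obtain ⟨i, hi⟩ := mem_iUnion.1 this
      exact mem_iUnion.2 ⟨i, hf, hi⟩
    have h2 : #F ≤ bNum := (Cardinal.mk_le_mk_of_subset h1).trans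
      ((mk_iUnion_le_b _ fun i => (hex i).le).trans
        ((mul_le_mul' hι le_rfl).trans (Cardinal.mul_eq_self aleph0_lt.le).le))
    exact absurd (hμ.trans_le hF) (not_lt.2 h2)

/-- **Theorem B.** -/
theorem card_lt_of_boundedSubfamilies (μ : Cardinal.{0}) (hμ : bNum < μ)
    (hN : BoundedSubfamilies μ) (X : Set (ℕ → Bool)) (hX : Concentrated X) : #X < μ := by
  obtain ⟨D, hDX, hDc, hD⟩ := hX
  rcases D.eq_empty_or_nonempty with rfl | hne
  · have h1 : #X < bNum := by simpa using hD ∅ isOpen_empty (by simp)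
    exact h1.trans hμ
  obtain ⟨d, hd⟩ := hDc.exists_eq_range hne
  have hdiff : ∀ x, x ∉ D → ∀ k, ∃ m, x m ≠ d k m := by
    intro x hx k
    apply Function.ne_iff.1
    rintro rfl
    exact hx (hd ▸ mem_range_self k)
  classical
  let φ : (ℕ → Bool) → ℕ → ℕ := fun x k => if hx : x ∉ D then (hdiff x hx k).choose else 0
  have hφ : ∀ x, x ∉ D → ∀ k, x (φ x k) ≠ d k (φ x k) := by
    intro x hx k
    simp only [φ, hx, not_false_eq_true, dif_pos]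
    exact (hdiff x hx k).choose_spec
  have step1 : ∀ h : ℕ → ℕ, #(↥{x ∈ X | x ∉ D ∧ ∀ k, φ x k ≤ h k}) < bNum := by
    intro h
    let O : Set (ℕ → Bool) := ⋃ k, ⋂ i ∈ Iic (h k), {x | x i = d k i}
    have hO : IsOpen O := by
      refine isOpen_iUnion fun k => ?_
      refine (finite_Iic _).isOpen_biInter fun i _ => ?_
      have h1 : {x : ℕ → Bool | x i = d k i} = (fun x : ℕ → Bool => x i) ⁻¹' {d k i} := rfl
      rw [h1]
      exact (isOpen_discrete _).preimage (continuous_apply i)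
    have hDO : D ⊆ O := by
      intro y hy
      rw [hd] at hy
      obtain ⟨k, rfl⟩ := hy
      exact mem_iUnion.2 ⟨k, mem_iInter₂.2 fun i _ => rfl⟩
    refine lt_of_le_of_lt (Cardinal.mk_le_mk_of_subset ?_) (hD O hO hDO)
    rintro x ⟨hx, hxD, hxh⟩
    refine ⟨hx, fun hxO => ?_⟩
    obtain ⟨k, hk⟩ := mem_iUnion.1 hxO
    exact hφ x hxD k (mem_iInter₂.1 hk (φ x k) (hxh k))
  have step2 : ∀ h : ℕ → ℕ, #(↥{x ∈ X | x ∉ D ∧ ∀ᶠ k in atTop, φ x k ≤ h k}) < bNum := by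
    intro h
    refine lt_of_le_of_lt (Cardinal.mk_le_mk_of_subset ?_)
      (mk_iUnion_lt (fun c : ℕ => {x ∈ X | x ∉ D ∧ ∀ k, φ x k ≤ max (h k) c})
        (fun c => step1 fun k => max (h k) c))
    rintro x ⟨hx, hxD, hxh⟩
    obtain ⟨N, hN⟩ := eventually_atTop.1 hxh
    refine mem_iUnion.2 ⟨(Finset.range N).sup (φ x), hx, hxD, fun k => ?_⟩
    rcases lt_or_ge k N with hk | hk
    · exact le_max_of_le_right (Finset.le_sup (f := φ x) (Finset.mem_range.2 hk))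
    · exact le_max_of_le_left (hN k hk)
  have hinf : ℵ₀ ≤ bNum := aleph0_lt.le
  by_contra hcon
  push Not at hcon
  have hF : μ ≤ #(↥(φ '' {x ∈ X | x ∉ D})) := by
    by_contra hle
    push Not at hle
    have hcov : X ⊆ D ∪ ⋃ f : ↥(φ '' {x ∈ X | x ∉ D}), {x ∈ X | x ∉ D ∧ φ x = f} := by
      intro x hx
      by_cases hxD : x ∈ D
      · exact Or.inl hxD
      · exact Or.inr (mem_iUnion.2 ⟨⟨φ x, mem_image_of_mem _ ⟨hx, hxD⟩⟩, hx, hxD, rfl⟩)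
    refine absurd hcon (not_le.2 ?_)
    refine lt_of_le_of_lt (Cardinal.mk_le_mk_of_subset hcov)
      (lt_of_le_of_lt (Cardinal.mk_union_le _ _) ?_)
    refine add_lt_of_lt (hinf.trans hμ.le)
      (((Cardinal.le_aleph0_iff_set_countable.2 hDc).trans hinf).trans_lt hμ) ?_
    refine lt_of_le_of_lt (mk_iUnion_le_b _ fun f => ?_)
      (mul_lt_of_lt (hinf.trans hμ.le) hle hμ)
    refine (lt_of_le_of_lt (Cardinal.mk_le_mk_of_subset ?_) (step1 f.1)).le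
    rintro x ⟨hx, hxD, hxf⟩
    exact ⟨hx, hxD, fun k => by rw [hxf]⟩
  obtain ⟨G, hGF, hGb, h, hh⟩ := hN _ hF
  have hpre : ∀ g : G, ∃ x, (x ∈ X ∧ x ∉ D) ∧ φ x = g := fun g => hGF g.2
  choose y hy1 hy2 using hpre
  have h1 : #G ≤ #(↥{x ∈ X | x ∉ D ∧ ∀ᶠ k in atTop, φ x k ≤ h k}) := by
    refine Cardinal.mk_le_of_injective
      (f := fun g : G => (⟨y g, (hy1 g).1, (hy1 g).2, by rw [hy2 g]; exact hh _ g.2⟩ :
        ↥{x ∈ X | x ∉ D ∧ ∀ᶠ k in atTop, φ x k ≤ h k})) ?_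
    intro g g' hgg
    have h2 : y g = y g' := congrArg Subtype.val hgg
    apply Subtype.ext
    rw [← hy2 g, ← hy2 g', h2]
  exact absurd hGb (lt_of_le_of_lt h1 (step2 h)).ne

end Pool.Agent.H458R6
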