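import Pool.Agent.H458R6.Base

/-!
# The semifilter trichotomy fails if the reaping number is the continuum
-/

namespace Pool.Agent.H458R6

open Cardinal Filter Set Topology

/-- The reaping number. -/
noncomputable def rNum : Cardinal.{0} :=
  sInf {κ : Cardinal.{0} | ∃ R : Set (Set ℕ), #R = κ ∧ (∀ a ∈ R, a.Infinite) ∧
    ∀ s : Set ℕ, ∃ a ∈ R, (a ∩ s).Finite ∨ (a \ s).Finite}

/-- Semifilters. -/
def IsSemifilter (S : Set (Set ℕ)) : Prop :=
  S.Nonempty ∧ (∀ a ∈ S, a.Infinite) ∧ ∀ a ∈ S, ∀ b : Set ℕ, b.Infinite → (a \ b).Finite → b ∈ S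

/-- `x / h`. -/
def quot (x : Set ℕ) (h : ℕ → ℕ) : Set ℕ := {n | ∃ m ∈ x, h n ≤ m ∧ m < h (n+1)}

/-- The semifilter trichotomy. -/
def SemifilterTrichotomy : Prop :=
  ∀ S : Set (Set ℕ), IsSemifilter S → ∃ h : ℕ → ℕ, StrictMono h ∧
    ((fun x => quot x h) '' S = {a | aᶜ.Finite} ∨
      (∃ 𝒱 : Ultrafilter ℕ, (fun x => quot x h) '' S = {a | a ∈ 𝒱}) ∨
      (fun x => quot x h) '' S = {a | a.Infinite})

theorem split_all (R : Set (Set ℕ)) (hinf : ∀ a ∈ R, a.Infinite) (h : #R < rNum) :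
    ∃ s : Set ℕ, ∀ a ∈ R, (a ∩ s).Infinite ∧ (a \ s).Infinite := by
  by_contra hcon
  apply notMem_of_lt_csInf' h
  refine ⟨R, rfl, hinf, fun s => ?_⟩
  by_contra h2
  apply hcon
  refine ⟨s, fun a ha => ?_⟩
  by_contra h3
  rw [not_and_or, not_infinite, not_infinite] at h3
  exact h2 ⟨a, ha, h3⟩

/-- union of the blocks with index in `y` -/
def blk (h : ℕ → ℕ) (y : Set ℕ) : Set ℕ := {m | ∃ n ∈ y, h n ≤ m ∧ m < h (n+1)}

theorem block_unique {h : ℕ → ℕ} (hh : StrictMono h) {n n' m : ℕ} (h1 : h n ≤ m)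
    (h2 : m < h (n+1)) (h3 : h n' ≤ m) (h4 : m < h (n'+1)) : n = n' := by
  have h5 : n < n' + 1 := hh.lt_iff_lt.1 (lt_of_le_of_lt h1 h4)
  have h6 : n' < n + 1 := hh.lt_iff_lt.1 (lt_of_le_of_lt h3 h2)
  omega

theorem exists_block {h : ℕ → ℕ} (hh : StrictMono h) {m : ℕ} (hm : h 0 ≤ m) :
    ∃ n, h n ≤ m ∧ m < h (n+1) := by
  have hex : ∃ n, m < h (n+1) := ⟨m, lt_of_lt_of_le (Nat.lt_succ_self m) (hh.id_le (m+1))⟩
  classical
  refine ⟨Nat.find hex, ?_, Nat.find_spec hex⟩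
  rcases Nat.eq_zero_or_pos (Nat.find hex) with h0 | h0
  · rw [h0]; exact hm
  · have h1 := Nat.find_min hex (m := Nat.find hex - 1) (by omega)
    have h2 : Nat.find hex - 1 + 1 = Nat.find hex := by omega
    rw [h2] at h1
    omega

theorem quot_infinite {h : ℕ → ℕ} (hh : StrictMono h) {x : Set ℕ} (hx : x.Infinite) :
    (quot x h).Infinite := by
  intro hfin
  obtain ⟨N, hN⟩ := hfin.bddAbove
  obtain ⟨m, hm, hm2⟩ := hx.exists_gt (h (N+1))
  obtain ⟨n, hn1, hn2⟩ := exists_block hh (m := m) ((hh.monotone (Nat.zero_le _)).trans hm2.le)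
  have h1 : n ≤ N := hN ⟨m, hm, hn1, hn2⟩
  have h2 : h (n+1) ≤ h (N+1) := hh.monotone (by omega)
  omega

theorem inter_blk {h : ℕ → ℕ} (hh : StrictMono h) {x z : Set ℕ}
    (hx : (quot x h ∩ z).Infinite) : (x ∩ blk h z).Infinite := by
  intro hfin
  obtain ⟨N, hN⟩ := hfin.bddAbove
  obtain ⟨n, ⟨⟨m, hm, hm1, hm2⟩, hnz⟩, hn⟩ := hx.exists_gt N
  have h1 := hN ⟨hm, n, hnz, hm1, hm2⟩
  have h2 := hh.id_le n
  simp only [id] at h2
  omega

theorem diff_blk {h : ℕ → ℕ} (hh : StrictMono h) {x z : Set ℕ}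
    (hx : (quot x h \ z).Infinite) : (x \ blk h z).Infinite := by
  intro hfin
  obtain ⟨N, hN⟩ := hfin.bddAbove
  obtain ⟨n, ⟨⟨m, hm, hm1, hm2⟩, hnz⟩, hn⟩ := hx.exists_gt N
  have h1 : m ≤ N := by
    refine hN ⟨hm, ?_⟩
    rintro ⟨n', hn', h3, h4⟩
    rw [block_unique hh hm1 hm2 h3 h4] at hnz
    exact hnz hn'
  have h2 := hh.id_le n
  simp only [id] at h2
  omega

theorem quot_blk {h : ℕ → ℕ} (hh : StrictMono h) (z : Set ℕ) : quot (blk h z) h = z := by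
  ext n
  constructor
  · rintro ⟨m, ⟨n', hn', h1, h2⟩, h3, h4⟩
    rw [block_unique hh h3 h4 h1 h2]
    exact hn'
  · intro hn
    exact ⟨h n, ⟨n, hn, le_rfl, hh (Nat.lt_succ_self n)⟩, le_rfl, hh (Nat.lt_succ_self n)⟩

theorem diff_blk_quot {h : ℕ → ℕ} (hh : StrictMono h) (x : Set ℕ) :
    (x \ blk h (quot x h)).Finite := by
  refine (finite_Iio (h 0)).subset ?_
  rintro m ⟨hm, hm2⟩
  by_contra h1
  simp only [mem_Iio, not_lt] at h1
  obtain ⟨n, hn1, hn2⟩ := exists_block hh h1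
  exact hm2 ⟨n, ⟨m, hm, hn1, hn2⟩, hn1, hn2⟩

/-- An acceptable item `a` for the task `h` over the set `T` of former items. -/
def Ok (h : ℕ → ℕ) (T : Set (Set ℕ × Set ℕ × Set ℕ)) (a : Set ℕ × Set ℕ × Set ℕ) : Prop :=
  a.1ᶜ.Infinite ∧ a.2.1.Infinite ∧ a.2.2.Infinite ∧
  (∃ y : Set ℕ, y.Infinite ∧ a.1 = blk h y) ∧
  (∃ z : Set ℕ, a.2.1 = blk h z ∧ a.2.2 = blk h zᶜ) ∧
  (∀ t ∈ T, (t.2.1 \ a.1).Infinite ∧ (t.2.2 \ a.1).Infinite) ∧
  (∀ t ∈ insert a T, (a.2.1 \ t.1).Infinite ∧ (a.2.2 \ t.1).Infinite)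

theorem exists_ok (hr : rNum = 𝔠) (h : ℕ → ℕ) (hh : StrictMono h)
    (T : Set (Set ℕ × Set ℕ × Set ℕ)) (hT : #T < 𝔠)
    (hinf : ∀ t ∈ T, t.1ᶜ.Infinite ∧ t.2.1.Infinite ∧ t.2.2.Infinite) : ∃ a, Ok h T a := by
  have hc := aleph0_le_continuum
  have hone : (1 : Cardinal.{0}) < 𝔠 := one_lt_aleph0.trans_le hc
  -- the set y
  have hR1 : #(↥(insert (quot Set.univ h)
      ((fun t : Set ℕ × Set ℕ × Set ℕ => quot t.2.1 h) '' T ∪
        (fun t : Set ℕ × Set ℕ × Set ℕ => quot t.2.2 h) '' T))) < rNum := by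
    rw [hr]
    refine lt_of_le_of_lt (mk_insert_le) (add_lt_of_lt hc ?_ hone)
    exact lt_of_le_of_lt (mk_union_le _ _) (add_lt_of_lt hc (mk_image_le.trans_lt hT)
      (mk_image_le.trans_lt hT))
  obtain ⟨y, hy⟩ := split_all _ (by
    rintro a (rfl | ⟨t, ht, rfl⟩ | ⟨t, ht, rfl⟩)
    · exact quot_infinite hh infinite_univ
    · exact quot_infinite hh (hinf t ht).2.1
    · exact quot_infinite hh (hinf t ht).2.2) hR1
  have hYc : (blk h y)ᶜ.Infinite := by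
    have h1 := diff_blk hh (hy _ (mem_insert _ _)).2
    rwa [← compl_eq_univ_sdiff] at h1
  have hyinf : y.Infinite := (hy _ (mem_insert _ _)).1.mono inter_subset_right
  -- the set z
  have hR2 : #(↥(insert (quot (blk h y)ᶜ h)
      ((fun t : Set ℕ × Set ℕ × Set ℕ => quot t.1ᶜ h) '' T))) < rNum := by
    rw [hr]
    exact lt_of_le_of_lt (mk_insert_le) (add_lt_of_lt hc (mk_image_le.trans_lt hT) hone)
  obtain ⟨z, hz⟩ := split_all _ (by
    rintro a (rfl | ⟨t, ht, rfl⟩)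
    · exact quot_infinite hh hYc
    · exact quot_infinite hh (hinf t ht).1) hR2
  have key : ∀ C : Set ℕ, (quot Cᶜ h ∩ z).Infinite ∧ (quot Cᶜ h \ z).Infinite →
      (blk h z \ C).Infinite ∧ (blk h zᶜ \ C).Infinite := by
    rintro C ⟨h1, h2⟩
    constructor
    · have h3 := inter_blk hh h1
      refine h3.mono ?_
      rintro m ⟨hm1, hm2⟩
      exact ⟨hm2, hm1⟩
    · have h3 := inter_blk hh (z := zᶜ) (x := Cᶜ) h2
      refine h3.mono ?_
      rintro m ⟨hm1, hm2⟩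
      exact ⟨hm2, hm1⟩
  have hY := key (blk h y) (hz _ (mem_insert _ _))
  refine ⟨(blk h y, blk h z, blk h zᶜ), hYc, hY.1.mono sdiff_subset, hY.2.mono sdiff_subset,
    ⟨y, hyinf, rfl⟩, ⟨z, rfl, rfl⟩, fun t ht => ⟨?_, ?_⟩, ?_⟩
  · exact diff_blk hh (hy _ (mem_insert_of_mem _ (Or.inl ⟨t, ht, rfl⟩))).2
  · exact diff_blk hh (hy _ (mem_insert_of_mem _ (Or.inr ⟨t, ht, rfl⟩))).2
  · rintro t (rfl | ht)
    · exact hY
    · exact key t.1 (hz _ (mem_insert_of_mem _ ⟨t, ht, rfl⟩))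

section

variable {Λ : Type} [LinearOrder Λ] [WellFoundedLT Λ] (task : Λ → ℕ → ℕ)

open Classical in
/-- the item chosen for a task at a state -/
noncomputable def pick (h : ℕ → ℕ) (T : Set (Set ℕ × Set ℕ × Set ℕ)) :
    Set ℕ × Set ℕ × Set ℕ :=
  if hex : ∃ a, Ok h T a then hex.choose else (∅, ∅, ∅)

theorem pick_ok {h : ℕ → ℕ} {T : Set (Set ℕ × Set ℕ × Set ℕ)} (hex : ∃ a, Ok h T a) :
    Ok h T (pick h T) := by
  rw [pick, dif_pos hex]
  exact hex.choose_spec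

/-- the items -/
noncomputable def item : Λ → Set ℕ × Set ℕ × Set ℕ :=
  wellFounded_lt.fix fun γ ih => pick (task γ) {a | ∃ β, ∃ h : β < γ, ih β h = a}

theorem item_eq (γ : Λ) : item task γ = pick (task γ) (item task '' Iio γ) := by
  rw [item, WellFounded.fix_eq]
  congr 1
  ext a
  simp only [Set.mem_ofPred_eq, Set.mem_image, Set.mem_Iio, exists_prop]

theorem item_ok (hr : rNum = 𝔠) (htask : ∀ γ, StrictMono (task γ))
    (hΛ : ∀ γ : Λ, #(Iio γ) < 𝔠) (γ : Λ) :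
    Ok (task γ) (item task '' Iio γ) (item task γ) := by
  induction γ using WellFoundedLT.induction with
  | ind γ ih =>
    rw [item_eq task γ]
    apply pick_ok
    refine exists_ok hr _ (htask γ) _ (mk_image_le.trans_lt (hΛ γ)) ?_
    rintro _ ⟨β, hβ, rfl⟩
    have h1 := ih β hβ
    exact ⟨h1.1, h1.2.1, h1.2.2.1⟩

end

/-- **Theorem D.** If the reaping number is the continuum then the semifilter trichotomy
fails. -/
theorem not_trichotomy (hr : rNum = 𝔠) : ¬ SemifilterTrichotomy := by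
  intro hST
  let Λ : Type := (𝔠 : Cardinal.{0}).ord.ToType
  have hΛ : ∀ γ : Λ, #(Iio γ) < 𝔠 := fun γ => Cardinal.mk_Iio_toType_ord_lt γ
  have hcard : #Λ = #(ℕ → ℕ) := by
    rw [Cardinal.mk_ord_toType]
    simp
  obtain ⟨e⟩ := Cardinal.eq.1 hcard
  classical
  let task : Λ → ℕ → ℕ := fun γ => if StrictMono (e γ) then e γ else id
  have htask : ∀ γ, StrictMono (task γ) := by
    intro γ
    by_cases h1 : StrictMono (e γ)
    · simp only [task, h1, if_true]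
    · simp only [task, h1, if_false]
      exact strictMono_id
  have hOk := item_ok task hr htask hΛ
  have hpair : ∀ γ β, ((item task γ).2.1 \ (item task β).1).Infinite ∧
      ((item task γ).2.2 \ (item task β).1).Infinite := by
    intro γ β
    rcases lt_trichotomy γ β with h | h | h
    · exact (hOk β).2.2.2.2.2.1 _ ⟨γ, h, rfl⟩
    · subst h
      exact (hOk γ).2.2.2.2.2.2 _ (mem_insert _ _)
    · exact (hOk γ).2.2.2.2.2.2 _ (mem_insert_of_mem _ ⟨β, h, rfl⟩)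
  let S : Set (Set ℕ) := {x | x.Infinite ∧ ∃ γ, ((item task γ).2.1 \ x).Finite ∨
    ((item task γ).2.2 \ x).Finite}
  have hne : Nonempty Λ := ⟨e.symm id⟩
  have hS1 : ∀ γ, (item task γ).2.1 ∈ S := fun γ => ⟨(hOk γ).2.1, γ, Or.inl (by simp)⟩
  have hS2 : ∀ γ, (item task γ).2.2 ∈ S := fun γ => ⟨(hOk γ).2.2.1, γ, Or.inr (by simp)⟩
  have hup : ∀ a ∈ S, ∀ b : Set ℕ, b.Infinite → (a \ b).Finite → b ∈ S := by
    rintro a ⟨ha, γ, hγ⟩ b hb hab
    refine ⟨hb, γ, ?_⟩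
    have h1 : ∀ c : Set ℕ, (c \ a).Finite → (c \ b).Finite := by
      intro c hc
      refine (hc.union hab).subset ?_
      rintro m ⟨hm1, hm2⟩
      by_cases hma : m ∈ a
      · exact Or.inr ⟨hma, hm2⟩
      · exact Or.inl ⟨hm1, hma⟩
    exact hγ.imp (h1 _) (h1 _)
  have hS3 : ∀ γ, (item task γ).1 ∉ S := by
    rintro β ⟨-, γ, h1 | h1⟩
    · exact (hpair γ β).1 h1
    · exact (hpair γ β).2 h1
  have hSemi : IsSemifilter S :=
    ⟨⟨_, hS1 hne.some⟩, fun a ha => ha.1, hup⟩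
  obtain ⟨h, hh, h3⟩ := hST S hSemi
  have htk : task (e.symm h) = h := by
    simp only [task, Equiv.apply_symm_apply, hh, if_true]
  have hO := hOk (e.symm h)
  rw [htk] at hO
  obtain ⟨y, hy, hy2⟩ := hO.2.2.2.1
  obtain ⟨z, hz1, hz2⟩ := hO.2.2.2.2.1
  have hzS : z ∈ (fun x => quot x h) '' S := ⟨blk h z, hz1 ▸ hS1 _, quot_blk hh z⟩
  have hzS' : zᶜ ∈ (fun x => quot x h) '' S := ⟨blk h zᶜ, hz2 ▸ hS2 _, quot_blk hh zᶜ⟩
  rcases h3 with h3 | ⟨𝒱, h3⟩ | h3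
  · rw [h3] at hzS hzS'
    have h4 : (z ∪ zᶜ).Finite := by
      have h5 : zᶜᶜ.Finite := hzS'
      rw [compl_compl] at h5
      exact h5.union hzS
    rw [union_compl_self] at h4
    exact infinite_univ h4
  · rw [h3] at hzS hzS'
    exact Ultrafilter.compl_notMem_iff.2 hzS hzS'
  · have hyS : y ∈ (fun x => quot x h) '' S := by rw [h3]; exact hy
    obtain ⟨x, hxS, hx⟩ := hyS
    have hx' : quot x h = y := hx
    have h4 := diff_blk_quot hh x
    rw [hx'] at h4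
    apply hS3 (e.symm h)
    rw [hy2]
    refine hup x hxS _ ?_ h4
    intro hfin
    exact hxS.1 ((hfin.union h4).subset fun m hm => by
      by_cases hm2 : m ∈ blk h y
      · exact Or.inl hm2
      · exact Or.inr ⟨hm, hm2⟩)

end Pool.Agent.H458R6
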