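import Pool.Agent.H458R6.Main
import Pool.Agent.H458R6.Tri

/-!
# The matrix of intermediate models
-/

namespace Pool.Agent.H458R6

open Cardinal Filter Set Topology

/-- characteristic function of a set of natural numbers -/
noncomputable def chi (s : Set ℕ) : ℕ → ℕ := s.indicator 1

/-- A matrix of families of functions `A γ δ` (`γ ∈ Γ`, `δ ∈ Δ`), increasing in both
coordinates, which covers `ω^ω`, such that `#Γ < 𝔠`, fewer than `#Γ` elements of `Γ` have an upper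
bound, fewer than `𝔠` elements of `Δ` have an upper bound, and

* each `A γ δ` is dominated by a single function;
* for each `γ` there is a function not dominated by a member of the row `⋃ δ, A γ δ`;
* for each `δ` there is an infinite set not split by a set with characteristic function in the
  column `⋃ γ, A γ δ`;
* for each `δ` there is a set which splits all infinite sets with characteristic function in the
  column `⋃ γ, A γ δ`. -/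
def HasMatrix : Prop :=
  ∃ (Γ Δ : Type) (_ : Preorder Γ) (_ : Preorder Δ) (A : Γ → Δ → Set (ℕ → ℕ)),
    #Γ < 𝔠 ∧ (∀ S : Set Γ, #S < #Γ → BddAbove S) ∧ (∀ S : Set Δ, #S < 𝔠 → BddAbove S) ∧
    (∀ γ γ' δ δ', γ ≤ γ' → δ ≤ δ' → A γ δ ⊆ A γ' δ') ∧
    (∀ f : ℕ → ℕ, ∃ γ δ, f ∈ A γ δ) ∧
    (∀ γ δ, Bdd (A γ δ)) ∧
    (∀ γ, ∃ c : ℕ → ℕ, ∀ δ, ∀ f ∈ A γ δ, ¬ ∀ᶠ n in atTop, c n ≤ f n) ∧
    (∀ δ, ∃ B : Set ℕ, B.Infinite ∧ ∀ γ, ∀ s : Set ℕ, chi s ∈ A γ δ →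
      (B ∩ s).Finite ∨ (B \ s).Finite) ∧
    (∀ δ, ∃ s : Set ℕ, ∀ γ, ∀ a : Set ℕ, a.Infinite → chi a ∈ A γ δ →
      (a ∩ s).Infinite ∧ (a \ s).Infinite)

theorem matrix_consequences (hM : HasMatrix) :
    bNum < sNum ∧ RowCover ∧ rNum = 𝔠 := by
  obtain ⟨Γ, Δ, _, _, A, hΓ, hΓb, hΔb, hmono, hcov, hdom, hunb, hmat, hcoh⟩ := hM
  have h1 : #Γ ≤ bNum := by
    obtain ⟨B, hB, hBu⟩ := exists_unbdd
    rw [← hB]
    by_contra hcon
    push Not at hcon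
    choose γ δ hf using hcov
    obtain ⟨γ', hγ'⟩ := hΓb (γ '' B) (mk_image_le.trans_lt hcon)
    obtain ⟨δ', hδ'⟩ := hΔb (δ '' B) ((mk_image_le.trans_lt hcon).trans hΓ)
    refine hBu (Bdd.mono ?_ (hdom γ' δ'))
    intro f hfB
    exact hmono _ _ _ _ (hγ' (mem_image_of_mem _ hfB)) (hδ' (mem_image_of_mem _ hfB)) (hf f)
  have h2 : bNum ≤ #Γ := by
    choose c hc using hunb
    have h3 : bNum ≤ #(range c) := by
      refine csInf_le' ⟨range c, rfl, ?_⟩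
      rintro ⟨g, hg⟩
      obtain ⟨γ, δ, hγδ⟩ := hcov g
      exact hc γ δ g hγδ (hg _ (mem_range_self γ))
    exact h3.trans mk_range_le
  have hb : bNum = #Γ := le_antisymm h2 h1
  have hcovδ : ∀ (S : Set (Set ℕ)), #S < 𝔠 → ∃ δ, ∀ s ∈ S, ∃ γ, chi s ∈ A γ δ := by
    intro S hS
    have hcov' := fun s : Set ℕ => hcov (chi s)
    choose γ δ hf using hcov'
    obtain ⟨δ', hδ'⟩ := hΔb (δ '' S) (mk_image_le.trans_lt hS)
    exact ⟨δ', fun s hs => ⟨γ s, hmono _ _ _ _ le_rfl (hδ' (mem_image_of_mem _ hs)) (hf s)⟩⟩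
  have h4 : 𝔠 ≤ sNum := by
    have hne : ({κ : Cardinal.{0} | ∃ S : Set (Set ℕ), #S = κ ∧
        ∀ A : Set ℕ, A.Infinite → ∃ s ∈ S, (A ∩ s).Infinite ∧ (A \ s).Infinite}).Nonempty := by
      refine ⟨_, Set.univ, rfl, fun a ha => ?_⟩
      obtain ⟨γ, δ, hγδ⟩ := hcov (chi a)
      obtain ⟨s, hs⟩ := hcoh δ
      exact ⟨s, Set.mem_univ _, hs γ a ha hγδ⟩
    refine le_csInf hne ?_
    rintro _ ⟨S, rfl, hS⟩
    by_contra hcon
    push Not at hcon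
    obtain ⟨δ, hδ⟩ := hcovδ S hcon
    obtain ⟨B, hBi, hB⟩ := hmat δ
    obtain ⟨s, hs, hs1, hs2⟩ := hS B hBi
    obtain ⟨γ, hγ⟩ := hδ s hs
    rcases hB γ s hγ with h | h
    · exact hs1 h
    · exact hs2 h
  have hall : #(↥{a : Set ℕ | a.Infinite}) ∈ {κ : Cardinal.{0} | ∃ R : Set (Set ℕ), #R = κ ∧
      (∀ a ∈ R, a.Infinite) ∧ ∀ s : Set ℕ, ∃ a ∈ R, (a ∩ s).Finite ∨ (a \ s).Finite} := by
    refine ⟨_, rfl, fun a ha => ha, fun s => ?_⟩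
    by_cases hs : s.Infinite
    · exact ⟨s, hs, Or.inr (by simp)⟩
    · refine ⟨sᶜ, ?_, Or.inl (by simp)⟩
      exact (not_infinite.1 hs).infinite_compl
  have h5 : 𝔠 ≤ rNum := by
    refine le_csInf ⟨_, hall⟩ ?_
    rintro _ ⟨R, rfl, hRi, hR⟩
    by_contra hcon
    push Not at hcon
    obtain ⟨δ, hδ⟩ := hcovδ R hcon
    obtain ⟨s, hs⟩ := hcoh δ
    obtain ⟨a, ha, h⟩ := hR s
    obtain ⟨γ, hγ⟩ := hδ a ha
    have h6 := hs γ a (hRi a ha) hγ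
    rcases h with h | h
    · exact h6.1 h
    · exact h6.2 h
  have h6 : rNum ≤ 𝔠 := by
    refine (csInf_le' hall).trans ?_
    refine (mk_set_le _).trans ?_
    simp
  refine ⟨?_, ⟨Γ, fun γ => ⋃ δ, A γ δ, h1, ?_, ?_⟩, le_antisymm h6 h5⟩
  · rw [hb]
    exact hΓ.trans_le h4
  · refine eq_univ_of_forall fun f => ?_
    obtain ⟨γ, δ, h⟩ := hcov f
    exact mem_iUnion.2 ⟨γ, mem_iUnion.2 ⟨δ, h⟩⟩
  · intro γ B hB hBc
    obtain ⟨-, δ0, -⟩ := hcov (fun _ => 0)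
    have : Nonempty Δ := ⟨δ0⟩
    have h7 : ∀ f ∈ B, ∃ δ, f ∈ A γ δ := fun f hf => mem_iUnion.1 (hB hf)
    choose! δ hδ using h7
    obtain ⟨δ', hδ'⟩ := hΔb (δ '' B) (mk_image_le.trans_lt (hBc.trans_lt (hb ▸ hΓ)))
    refine Bdd.mono ?_ (hdom γ δ')
    intro f hf
    exact hmono _ _ _ _ le_rfl (hδ' (mem_image_of_mem _ hf)) (hδ f hf)

end Pool.Agent.H458R6
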