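import Pool.Agent.H458R6.Base

/-!
# Products of small concentrated sets with Hurewicz sets
-/

namespace Pool.Agent.H458R6

open Cardinal Filter Set Topology

/-- The core of the argument: for neighbourhoods `U n k` of the points `d k` there are bounds
`b n` such that all points of `X`, with fewer than `b` exceptions, belong to
`⋃ k ≤ b n, U n k` for almost all `n`. -/
theorem core (X D : Set (ℕ → Bool))
    (hD : ∀ U : Set (ℕ → Bool), IsOpen U → D ⊆ U → #(↥(X \ U)) < bNum) (hs : #X < sNum)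
    (d : ℕ → (ℕ → Bool)) (hdrep : ∀ y ∈ D, ∀ m, ∃ k ≥ m, d k = y)
    (U : ℕ → ℕ → Set (ℕ → Bool)) (hUo : ∀ n k, IsOpen (U n k)) (hUd : ∀ n k, d k ∈ U n k) :
    ∃ (g : ℕ → ℕ) (E : Set (ℕ → Bool)), E ⊆ X ∧ #E < bNum ∧
      ∀ x ∈ X, x ∉ E → ∀ᶠ n in atTop, ∃ k ≤ g n, x ∈ U n k := by
  let P : (ℕ → Bool) → ℕ → ℕ → Prop := fun x n k => ∀ j ≤ n, ∃ k' ≤ k, x ∈ U j k'
  have hPk : ∀ x n k k', k ≤ k' → P x n k → P x n k' := by
    intro x n k k' hkk h j hj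
    obtain ⟨i, hi, hx⟩ := h j hj
    exact ⟨i, hi.trans hkk, hx⟩
  have hPn : ∀ x n n' k, n' ≤ n → P x n k → P x n' k :=
    fun x n n' k hnn h j hj => h j (hj.trans hnn)
  obtain ⟨B, hBinf, hB⟩ := unsplit
    ((fun x : ℕ → Bool => {t | ¬ P x (pos (P x) t).1 (pos (P x) t).2}) '' X)
    (lt_of_le_of_lt Cardinal.mk_image_le hs)
  let b : ℕ → ℕ := Nat.nth (· ∈ B)
  have hb : StrictMono b := Nat.nth_strictMono hBinf
  have hbB : ∀ n, b n ∈ B := fun n => Nat.nth_mem_of_infinite hBinf n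
  let O : ℕ → Set (ℕ → Bool) := fun m => ⋃ k ∈ Ici m, ⋂ j ∈ Iic (b (2 * k)), U j k
  have hO : ∀ m, IsOpen (O m) := by
    intro m
    refine isOpen_biUnion fun k _ => ?_
    exact (finite_Iic _).isOpen_biInter fun j _ => hUo j k
  have hDO : ∀ m, D ⊆ O m := by
    intro m y hy
    obtain ⟨k, hk, rfl⟩ := hdrep y hy m
    exact mem_biUnion (show k ∈ Ici m from hk) (mem_iInter₂.2 fun j _ => hUd j k)
  have hE : #(↥(⋃ m, X \ O m)) < bNum := mk_iUnion_lt _ fun m => hD _ (hO m) (hDO m)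
  refine ⟨fun n => b (2 * n), ⋃ m, X \ O m, iUnion_subset fun m => sdiff_subset, hE, ?_⟩
  intro x hx hxE
  rcases path_dichotomy (P x) (hPk x) (hPn x) B b hb hbB (hB _ ⟨x, hx, rfl⟩) with
    ⟨c, hc⟩ | ⟨c, hc⟩
  · filter_upwards [eventually_ge_atTop c] with n hn
    exact hc n hn n le_rfl
  · exfalso
    apply hxE
    refine mem_iUnion.2 ⟨c, hx, ?_⟩
    intro hxO
    obtain ⟨k, hk, hxk⟩ := mem_iUnion₂.1 hxO
    apply hc k hk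
    intro j hj
    exact ⟨k, le_rfl, mem_iInter₂.1 hxk j hj⟩

/-- Hurewicz sets and increasing open covers. -/
theorem hur_increasing {β : Type} [TopologicalSpace β] (Y : Set β) (hY : Hurewicz Y)
    (C : ℕ → ℕ → Set β) (hCo : ∀ n j, IsOpen (C n j)) (hCm : ∀ n, Monotone (C n))
    (hC : ∀ n, ∀ y ∈ Y, ∃ j, y ∈ C n j) :
    ∃ φ : ℕ → ℕ, ∀ y ∈ Y, ∀ᶠ n in atTop, y ∈ C n (φ n) := by
  obtain ⟨ℱ, hF1, hF2⟩ := hY (fun n => range (C n)) (fun n => ⟨by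
    rintro _ ⟨j, rfl⟩
    exact hCo n j, fun y hy => by
    obtain ⟨j, hj⟩ := hC n y hy
    exact ⟨C n j, mem_range_self j, hj⟩⟩)
  have hJ : ∀ n, ∃ J, ∀ S ∈ ℱ n, S ⊆ C n J := by
    intro n
    have hex : ∀ S ∈ ℱ n, ∃ j, C n j = S := fun S hS => (hF1 n).2 hS
    choose! j hj using hex
    obtain ⟨J, hJ⟩ := ((hF1 n).1.image j).bddAbove
    refine ⟨J, fun S hS => ?_⟩
    rw [← hj S hS]
    exact hCm n (hJ (mem_image_of_mem _ hS))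
  choose φ hφ using hJ
  refine ⟨φ, fun y hy => ?_⟩
  filter_upwards [hF2 y hy] with n hn
  obtain ⟨S, hS, hyS⟩ := hn
  exact hφ n S hS hyS

/-- Hurewicz sets and double sequences of covers closed under finite unions. -/
theorem hur_pairs {β : Type} [TopologicalSpace β] (Y : Set β) (hY : Hurewicz Y)
    (𝒱 : ℕ → ℕ → Set (Set β)) (ho : ∀ n k, ∀ V ∈ 𝒱 n k, IsOpen V)
    (hc : ∀ n k, Y ⊆ ⋃₀ 𝒱 n k)
    (hf : ∀ n k, ∀ ℱ : Set (Set β), ℱ.Finite → ℱ ⊆ 𝒱 n k → ⋃₀ ℱ ∈ 𝒱 n k) :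
    ∃ V : ℕ → ℕ → Set β, (∀ n k, V n k ∈ 𝒱 n k) ∧ ∀ y ∈ Y, ∃ N, ∀ n ≥ N, ∀ k, y ∈ V n k := by
  obtain ⟨ℱ, hF1, hF2⟩ := hY (fun m => 𝒱 m.unpair.1 m.unpair.2)
    (fun m => ⟨ho _ _, hc _ _⟩)
  refine ⟨fun n k => ⋃₀ ℱ (Nat.pair n k), fun n k => ?_, fun y hy => ?_⟩
  · have h1 := hF1 (Nat.pair n k)
    simp only [Nat.unpair_pair] at h1
    exact hf n k _ h1.1 h1.2
  · obtain ⟨N, hN⟩ := eventually_atTop.1 (hF2 y hy)
    exact ⟨N, fun n hn k => hN _ (hn.trans (Nat.left_le_pair n k))⟩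

/-- **Theorem A for products.** -/
theorem prodHurewicz_of_small (X : Set (ℕ → Bool)) (hX : Concentrated X) (hs : #X < sNum)
    {β : Type} [TopologicalSpace β] [SecondCountableTopology β] (Y : Set β) (hY : Hurewicz Y) :
    Hurewicz (X ×ˢ Y) := by
  intro 𝒰 h𝒰
  rcases (X ×ˢ Y).eq_empty_or_nonempty with hemp | hneXY
  · rw [hemp]
    exact ⟨fun _ => ∅, fun n => ⟨finite_empty, empty_subset _⟩, by simp⟩
  -- the combination step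
  have combine : ∀ (V : ℕ → Set (Set ((ℕ → Bool) × β))) (hV : ∀ n, (V n).Finite ∧ V n ⊆ 𝒰 n)
      (E : Set (ℕ → Bool)) (hEX : E ⊆ X) (hE : #E < bNum)
      (hc : ∀ x ∈ X, x ∉ E → ∀ y ∈ Y, ∀ᶠ n in atTop, (x, y) ∈ ⋃₀ V n),
      ∃ ℱ : ℕ → Set (Set ((ℕ → Bool) × β)), (∀ n, (ℱ n).Finite ∧ ℱ n ⊆ 𝒰 n) ∧
        ∀ x ∈ X ×ˢ Y, ∀ᶠ n in atTop, x ∈ ⋃₀ ℱ n := by
    intro V hV E hEX hE hc
    have hW : ∀ n, ∃ W : ℕ → Set ((ℕ → Bool) × β), (∀ i, W i ∈ 𝒰 n) ∧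
        ∀ x ∈ X ×ˢ Y, ∃ i, x ∈ W i := by
      intro n
      obtain ⟨T, hT1, hT2, hT3⟩ := TopologicalSpace.isOpen_sUnion_countable (𝒰 n) (h𝒰 n).1
      have hcov : X ×ˢ Y ⊆ ⋃₀ T := hT3 ▸ (h𝒰 n).2
      obtain ⟨x0, hx0⟩ := hneXY
      obtain ⟨t, ht, -⟩ := hcov hx0
      obtain ⟨f, hf⟩ := hT1.exists_eq_range ⟨t, ht⟩
      refine ⟨f, fun i => hT2 (hf ▸ mem_range_self i), fun x hx => ?_⟩
      obtain ⟨s, hs, hxs⟩ := hcov hx
      rw [hf] at hs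
      obtain ⟨i, rfl⟩ := hs
      exact ⟨i, hxs⟩
    choose W hW1 hW2 using hW
    have hφ : ∀ x ∈ X, ∃ φ : ℕ → ℕ, ∀ y ∈ Y, ∀ᶠ n in atTop, ∃ i ≤ φ n, (x, y) ∈ W n i := by
      intro x hx
      obtain ⟨φ, hφ⟩ := hur_increasing Y hY (fun n j => {y | ∃ i ≤ j, (x, y) ∈ W n i}) (by
        intro n j
        have h1 : {y : β | ∃ i ≤ j, (x, y) ∈ W n i} =
            ⋃ i ∈ Iic j, (fun y : β => (x, y)) ⁻¹' (W n i) := by
          ext y; simp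
        rw [h1]
        exact isOpen_biUnion fun i _ =>
          ((h𝒰 n).1 _ (hW1 n i)).preimage (Continuous.prodMk_right x)) (by
        intro n j j' hjj y hy
        obtain ⟨i, hi, hxy⟩ := hy
        exact ⟨i, hi.trans hjj, hxy⟩) (by
        intro n y hy
        obtain ⟨i, hi⟩ := hW2 n (x, y) ⟨hx, hy⟩
        exact ⟨i, i, le_rfl, hi⟩)
      exact ⟨φ, hφ⟩
    choose! φ hφ using hφ
    obtain ⟨g, hg⟩ := bdd_image E φ hE
    refine ⟨fun n => V n ∪ W n '' Iic (g n), fun n => ⟨?_, ?_⟩, fun x hx => ?_⟩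
    · exact (hV n).1.union ((finite_Iic _).image _)
    · refine union_subset (hV n).2 ?_
      rintro _ ⟨i, -, rfl⟩
      exact hW1 n i
    · obtain ⟨x, y⟩ := x
      by_cases hxE : x ∈ E
      · filter_upwards [hg x hxE, hφ x hx.1 y hx.2] with n hn hn2
        obtain ⟨i, hi, hxy⟩ := hn2
        exact ⟨W n i, Or.inr ⟨i, hi.trans hn, rfl⟩, hxy⟩
      · filter_upwards [hc x hx.1 hxE y hx.2] with n hn
        obtain ⟨s, hs, hxs⟩ := hn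
        exact ⟨s, Or.inl hs, hxs⟩
  obtain ⟨D, hDX, hDc, hD⟩ := hX
  rcases D.eq_empty_or_nonempty with rfl | hne
  · have h1 : #X < bNum := by simpa using hD ∅ isOpen_empty (by simp)
    exact combine (fun _ => ∅) (fun n => ⟨finite_empty, empty_subset _⟩) X
      subset_rfl h1 (fun x hx hxE => absurd hx hxE)
  obtain ⟨e, he⟩ := hDc.exists_eq_range hne
  let d : ℕ → (ℕ → Bool) := fun k => e k.unpair.1
  have hdD : ∀ k, d k ∈ D := fun k => he ▸ mem_range_self _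
  have hdrep : ∀ y ∈ D, ∀ m, ∃ k ≥ m, d k = y := by
    intro y hy m
    rw [he] at hy
    obtain ⟨i, rfl⟩ := hy
    exact ⟨Nat.pair i m, Nat.right_le_pair i m, by simp [d]⟩
  let Φ : ℕ → ℕ → Set β → Set (ℕ → Bool) → Set (Set ((ℕ → Bool) × β)) → Prop :=
    fun n k V U 𝒢 => IsOpen U ∧ d k ∈ U ∧ 𝒢.Finite ∧ 𝒢 ⊆ 𝒰 n ∧ U ×ˢ V ⊆ ⋃₀ 𝒢
  obtain ⟨V, hV1, hV2⟩ := hur_pairs Y hY (fun n k => {V | IsOpen V ∧ ∃ U 𝒢, Φ n k V U 𝒢})
    (fun n k V hV => hV.1) (by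
      intro n k y hy
      obtain ⟨O, hO, hdO⟩ := (h𝒰 n).2 (show (d k, y) ∈ X ×ˢ Y from ⟨hDX (hdD k), hy⟩)
      obtain ⟨u, v, hu, hv, hdu, hyv, huv⟩ := isOpen_prod_iff.1 ((h𝒰 n).1 O hO) (d k) y hdO
      refine ⟨v, ⟨hv, u, {O}, hu, hdu, finite_singleton _, by simpa using hO, ?_⟩, hyv⟩
      simpa using huv) (by
      intro n k ℱ hfin hℱ
      have hex : ∀ W ∈ ℱ, ∃ U 𝒢, Φ n k W U 𝒢 := fun W hW => (hℱ hW).2
      choose! u 𝒢 hu using hex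
      refine ⟨isOpen_sUnion fun W hW => (hℱ hW).1, ⋂ W ∈ ℱ, u W, ⋃ W ∈ ℱ, 𝒢 W, ?_, ?_, ?_, ?_, ?_⟩
      · exact hfin.isOpen_biInter fun W hW => (hu W hW).1
      · exact mem_iInter₂.2 fun W hW => (hu W hW).2.1
      · exact hfin.biUnion fun W hW => (hu W hW).2.2.1
      · exact iUnion₂_subset fun W hW => (hu W hW).2.2.2.1
      · rintro ⟨a, y⟩ ⟨ha, W, hW, hyW⟩
        obtain ⟨G, hG, hayG⟩ := (hu W hW).2.2.2.2 ⟨mem_iInter₂.1 ha W hW, hyW⟩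
        exact ⟨G, mem_biUnion hW hG, hayG⟩)
  have hV3 : ∀ n k, ∃ U 𝒢, Φ n k (V n k) U 𝒢 := fun n k => (hV1 n k).2
  choose U 𝒢 hU using hV3
  obtain ⟨g, E, hEX, hE, hcore⟩ := core X D hD hs d hdrep U (fun n k => (hU n k).1)
    (fun n k => (hU n k).2.1)
  refine combine (fun n => ⋃ k ∈ Iic (g n), 𝒢 n k) (fun n => ⟨?_, ?_⟩) E hEX hE ?_
  · exact (finite_Iic _).biUnion fun k _ => (hU n k).2.2.1
  · exact iUnion₂_subset fun k _ => (hU n k).2.2.2.1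
  · intro x hx hxE y hy
    obtain ⟨N, hN⟩ := hV2 y hy
    filter_upwards [hcore x hx hxE, eventually_ge_atTop N] with n hn hnN
    obtain ⟨k, hk, hxk⟩ := hn
    obtain ⟨G, hG, hxyG⟩ := (hU n k).2.2.2.2 (show (x, y) ∈ U n k ×ˢ V n k from
      ⟨hxk, hN n hnN k⟩)
    exact ⟨G, mem_biUnion (show k ∈ Iic (g n) from hk) hG, hxyG⟩

end Pool.Agent.H458R6
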